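import Pool.Agent.VM.Stmts

/-!
# Vinogradov's mean value theorem in a finite `p`-adic form, module BIJ
-/

set_option autoImplicit false

namespace Pool.Agent.VM.H20

open Polynomial

theorem bij_field {F : Type*} [Field F] {k l : ℕ} (hlk : l ≤ k)
    (hF : ∀ n : ℕ, 1 ≤ n → n ≤ k → (n : F) ≠ 0) {c : F} (hc : c ≠ 0) (z : Fin l → F)
    (h : ∀ i : Fin l, ∑ j : Fin l, z j *
      ((Nat.choose (k - l + (j : ℕ) + 1) ((i : ℕ) + 1) : ℕ) : F) *
        c ^ (k - l + (j : ℕ) + 1 - ((i : ℕ) + 1)) = 0) : ∀ j, z j = 0 := by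
  obtain ⟨P, hP⟩ : ∃ P : F[X], P = ∑ j : Fin l, monomial (k - l + (j : ℕ) + 1) (z j) := ⟨_, rfl⟩
  have h1 : ∀ i : Fin l, (hasseDeriv ((i : ℕ) + 1) P).eval c = 0 := by
    intro i
    rw [hP, map_sum, eval_finsetSum, ← h i]
    refine Finset.sum_congr rfl fun j _ => ?_
    rw [hasseDeriv_monomial, eval_monomial, mul_comm (z j)]
  have h2 : (X - C c) ^ (l + 1) ∣ P - C (P.eval c) := by
    rw [X_sub_C_pow_dvd_iff, X_pow_dvd_iff]
    intro e he
    rw [← taylor_apply, map_sub, coeff_sub, taylor_C, taylor_coeff]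
    cases e with
    | zero => simp
    | succ e =>
      have h3 := h1 ⟨e, by omega⟩
      simp only at h3
      rw [h3, coeff_C, if_neg (Nat.succ_ne_zero e), sub_zero]
  have h3 : (X - C c) ^ l ∣ derivative P := by
    have h4 := pow_sub_one_dvd_derivative_of_pow_dvd h2
    rw [Nat.add_sub_cancel, derivative_sub, derivative_C, sub_zero] at h4
    exact h4
  obtain ⟨R, hR⟩ : ∃ R : F[X], R = ∑ j : Fin l,
      monomial (j : ℕ) (z j * ((k - l + (j : ℕ) + 1 : ℕ) : F)) := ⟨_, rfl⟩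
  have h4 : derivative P = X ^ (k - l) * R := by
    rw [hP, hR, derivative_sum, Finset.mul_sum]
    refine Finset.sum_congr rfl fun j _ => ?_
    have h5 : k - l + (j : ℕ) + 1 - 1 = (j : ℕ) + (k - l) := by omega
    rw [derivative_monomial, X_pow_mul_monomial, h5]
  rw [h4] at h3
  have h5 : IsCoprime ((X - C c) ^ l) ((X : F[X]) ^ (k - l)) := by
    refine IsCoprime.pow ?_
    have h6 := isCoprime_X_sub_C_of_isUnit_sub (R := F) (a := c) (b := 0)
      (by rw [sub_zero]; exact isUnit_iff_ne_zero.2 hc)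
    rwa [map_zero, sub_zero] at h6
  have h6 : (X - C c) ^ l ∣ R := h5.dvd_of_dvd_mul_left h3
  have h7 : R = 0 := by
    by_contra h0
    have h8 := natDegree_le_of_dvd h6 h0
    rw [natDegree_pow, natDegree_X_sub_C, mul_one] at h8
    have h9 : R.natDegree < l := by
      rcases Nat.eq_zero_or_pos l with hl | hl
      · subst hl
        rw [hR] at h0
        simp at h0
      · rw [hR]
        refine lt_of_le_of_lt (natDegree_sum_le _ _) ?_
        rw [Finset.fold_max_lt]
        refine ⟨hl, fun j _ => lt_of_le_of_lt (natDegree_monomial_le _) j.2⟩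
    omega
  intro j
  have h8 : R.coeff (j : ℕ) = z j * ((k - l + (j : ℕ) + 1 : ℕ) : F) := by
    rw [hR, finsetSum_coeff, Finset.sum_eq_single j]
    · rw [coeff_monomial, if_pos rfl]
    · intro b _ hb
      rw [coeff_monomial, if_neg]
      intro h
      exact hb (Fin.ext h)
    · intro h
      exact absurd (Finset.mem_univ j) h
  rw [h7, coeff_zero] at h8
  rcases mul_eq_zero.1 h8.symm with h9 | h9
  · exact h9
  · exact absurd h9 (hF _ (by omega) (by have := j.2; omega))

/-- BIJ -/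
theorem bij : BijStmt := by
  intro p k l M c hp hkp hlk hc
  have : Fact p.Prime := ⟨hp⟩
  have hpm : ∀ ζ : Fin l → ℤ, (∀ i : Fin l, (p : ℤ) ∣ ∑ j : Fin l, ζ j *
      ((Nat.choose (k - l + (j : ℕ) + 1) ((i : ℕ) + 1) : ℕ) : ℤ) *
        c ^ (k - l + (j : ℕ) + 1 - ((i : ℕ) + 1))) → ∀ j, (p : ℤ) ∣ ζ j := by
    intro ζ h j
    rw [← ZMod.intCast_zmod_eq_zero_iff_dvd]
    refine bij_field (F := ZMod p) hlk ?_ (c := (c : ZMod p)) ?_ (fun j => (ζ j : ZMod p)) ?_ j
    · intro n h1 h2 h3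
      rw [ZMod.natCast_eq_zero_iff] at h3
      have := Nat.le_of_dvd h1 h3
      omega
    · intro h0
      rw [ZMod.intCast_zmod_eq_zero_iff_dvd] at h0
      exact hc h0
    · intro i
      have h1 := h i
      rw [← ZMod.intCast_zmod_eq_zero_iff_dvd] at h1
      push_cast at h1 ⊢
      exact h1
  induction M with
  | zero =>
    intro ζ _ j
    rw [pow_zero]
    exact one_dvd _
  | succ M ih =>
    intro ζ h j
    have h1 := hpm ζ fun i => (dvd_pow_self (p : ℤ) (Nat.succ_ne_zero M)).trans (h i)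
    choose ξ hξ using h1
    have hp0 : (p : ℤ) ≠ 0 := by exact_mod_cast hp.ne_zero
    have h2 := ih ξ (fun i => by
      have h3 := h i
      have h4 : ∑ j : Fin l, ζ j *
          ((Nat.choose (k - l + (j : ℕ) + 1) ((i : ℕ) + 1) : ℕ) : ℤ) *
            c ^ (k - l + (j : ℕ) + 1 - ((i : ℕ) + 1)) = (p : ℤ) * ∑ j : Fin l, ξ j *
          ((Nat.choose (k - l + (j : ℕ) + 1) ((i : ℕ) + 1) : ℕ) : ℤ) *
            c ^ (k - l + (j : ℕ) + 1 - ((i : ℕ) + 1)) := by
        rw [Finset.mul_sum]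
        refine Finset.sum_congr rfl fun j _ => ?_
        rw [hξ j]
        ring
      rw [h4, pow_succ'] at h3
      exact (mul_dvd_mul_iff_left hp0).1 h3) j
    rw [hξ j, pow_succ']
    exact mul_dvd_mul_left _ h2

end Pool.Agent.VM.H20
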